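import Pool.Agent.Q137.YT.Lower
import Pool.Agent.Q137.YT.Upper

/-!
# The number of three-leaf gluing trees of a polygon has order `n³`

`Q137.YT.Y P` is the type of three-leaf gluings of the boundary of the simple polygon `P`, given by
the three boundary points that are glued at the node of degree three; `Y.Valid` is Alexandrov's
angle condition and `SameType` says that the labelled gluing trees are isomorphic.  `maxTrees n`
is the function `f(n)` of the problem.
-/

set_option autoImplicit false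

namespace Pool.Agent.Results.MP_d9fc2a_co.ThreeLeafCubic

open Pool.Agent.H586R2.AF Q137.YT Filter Asymptotics

theorem maxTrees_le (n : ℕ) : maxTrees n ≤ ((51 * n ^ 3 : ℕ) : ℕ∞) := by
  unfold maxTrees
  refine iSup_le fun P => iSup_le fun hP => iSup_le fun hn => iSup_le fun S => iSup_le fun h1 =>
    iSup_le fun h2 => ?_
  have := upper hP S h1 h2
  rw [hn] at this
  exact_mod_cast this

theorem toNat_le (n : ℕ) : (maxTrees n).toNat ≤ 51 * n ^ 3 := by
  have h := maxTrees_le n
  have h2 := ENat.toNat_le_toNat h (ENat.natCast_ne_top _)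
  rwa [ENat.toNat_natCast] at h2

theorem le_toNat {n : ℕ} (hn : 3 ≤ n) : (n - 1).choose 3 ≤ (maxTrees n).toNat := by
  have h := lower hn
  have h1 : maxTrees n ≠ ⊤ := ne_top_of_le_ne_top (ENat.natCast_ne_top _) (maxTrees_le n)
  have h2 := ENat.toNat_le_toNat h h1
  simpa using h2

theorem cube_le {n : ℕ} (hn : 6 ≤ n) : n ^ 3 ≤ 48 * (n - 1).choose 3 := by
  obtain ⟨m, rfl⟩ : ∃ m, n = m + 4 := ⟨n - 4, by omega⟩
  have h1 : (m + 4 - 1).choose 3 * 6 = (m + 3) * (m + 2) * (m + 1) := by
    rw [show m + 4 - 1 = m + 3 by omega]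
    have := Nat.descFactorial_eq_factorial_mul_choose (m + 3) 3
    simp only [Nat.descFactorial, Nat.factorial] at this
    have e1 : m + 3 - 0 = m + 3 := by omega
    have e2 : m + 3 - 1 = m + 2 := by omega
    have e3 : m + 3 - 2 = m + 1 := by omega
    rw [e1, e2, e3] at this
    linarith
  have hm : 2 ≤ m := by omega
  have h2 : (m + 4) ^ 3 ≤ 8 * ((m + 3) * (m + 2) * (m + 1)) := by
    obtain ⟨l, rfl⟩ : ∃ l, m = l + 2 := ⟨m - 2, by omega⟩
    nlinarith [sq_nonneg l, Nat.zero_le (l ^ 3), Nat.zero_le (l ^ 2), Nat.zero_le l]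
  omega

/-- **Main theorem.** (1) Every simple polygon with `n` vertices has at most `51 n³` types of
three-leaf gluing trees. (2) For every `n ≥ 3` some convex polygon with `n` vertices has at least
`(n - 1).choose 3` of them. (3) Hence the maximum `f(n)` is of order exactly `n³`. -/
theorem result :
    (∀ P : List (ℝ × ℝ), IsPolygon P → ∀ S : Finset (Y P), (∀ G ∈ S, G.Valid) →
      (∀ G ∈ S, ∀ G' ∈ S, G ≠ G' → ¬ SameType G G') → S.card ≤ 51 * P.length ^ 3) ∧
    (∀ n : ℕ, 3 ≤ n → ∃ P : List (ℝ × ℝ), IsPolygon P ∧ P.length = n ∧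
      (∀ k, k < n → intAngle P k < Real.pi) ∧ ∃ S : Finset (Y P), (∀ G ∈ S, G.Valid) ∧
        (∀ G ∈ S, ∀ G' ∈ S, G ≠ G' → ¬ SameType G G') ∧ S.card = (n - 1).choose 3) ∧
    (fun n : ℕ => ((maxTrees n).toNat : ℝ)) =Θ[atTop] (fun n : ℕ => (n : ℝ) ^ 3) ∧
    (∀ n : ℕ, maxTrees n ≠ ⊤) := by
  refine ⟨fun P hP S h1 h2 => upper hP S h1 h2, fun n hn => lower' hn, ⟨?_, ?_⟩,
    fun n => ne_top_of_le_ne_top (ENat.natCast_ne_top _) (maxTrees_le n)⟩
  · refine IsBigO.of_bound 51 (Eventually.of_forall fun n => ?_)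
    have h := toNat_le n
    have h' : ((maxTrees n).toNat : ℝ) ≤ 51 * (n : ℝ) ^ 3 := by exact_mod_cast h
    rw [Real.norm_of_nonneg (by positivity), Real.norm_of_nonneg (by positivity)]
    exact h'
  · refine IsBigO.of_bound 48 ?_
    filter_upwards [eventually_ge_atTop 6] with n hn
    have h := le_toNat (n := n) (by omega)
    have h2 := cube_le hn
    have h3 : n ^ 3 ≤ 48 * (maxTrees n).toNat := h2.trans (Nat.mul_le_mul_left _ h)
    have h' : (n : ℝ) ^ 3 ≤ 48 * ((maxTrees n).toNat : ℝ) := by exact_mod_cast h3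
    rw [Real.norm_of_nonneg (by positivity), Real.norm_of_nonneg (by positivity)]
    exact h'

end Pool.Agent.Results.MP_d9fc2a_co.ThreeLeafCubic
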